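import Pool.Agent.R264.OE.Final
import Pool.Agent.R264.OE.BOX
import Pool.Agent.R264.OE.RHO
import Pool.Agent.R264.OE.VAR
import Pool.Agent.R264.OE.COP
import Pool.Agent.R264.OE.VSUM
import Pool.Agent.R264.OE.REM
import Pool.Agent.R264.OE.NT
import Pool.Agent.R264.OE.STG
import Pool.Agent.R264.OE.ASM
import Pool.Agent.R264.OE.SMALL

namespace Pool.Agent.Results.MP_696bea_an.DivergenceAlongOmega

open MeasureTheory Set Filter Topology Pool.Agent.R264.OE

/-- Let `T` be an ergodic measure-preserving map of a probability space `(X, μ)` which is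
non-atomic: either `X` is a standard Borel space in which points have measure `0`, or `X` is any
measurable space and there are measurable sets of arbitrarily small positive measure.
Then some measurable set `A` has, at almost every point `x`, upper limit `1` and lower limit `0`
of the averages of `1_A(T^{Ω(m²+n²)} x)` over `1 ≤ m, n ≤ N`. -/
theorem result {X : Type*} [MeasurableSpace X] (μ : Measure X) [IsProbabilityMeasure μ]
    (T : X → X) (hT : Ergodic T μ)
    (hna : (StandardBorelSpace X ∧ ∀ x, μ {x} = 0) ∨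
      (∀ ε : ENNReal, 0 < ε → ∃ E : Set X, MeasurableSet E ∧ 0 < μ E ∧ μ E < ε)) :
    ∃ A : Set X, MeasurableSet A ∧ ∀ᵐ x ∂μ,
      limsup (fun N : ℕ => (∑ m ∈ Finset.Icc 1 N, ∑ n ∈ Finset.Icc 1 N,
        A.indicator (fun _ => (1 : ℝ)) (T^[ArithmeticFunction.cardFactors (m ^ 2 + n ^ 2)] x)) /
        (N : ℝ) ^ 2) atTop = 1 ∧
      liminf (fun N : ℕ => (∑ m ∈ Finset.Icc 1 N, ∑ n ∈ Finset.Icc 1 N,
        A.indicator (fun _ => (1 : ℝ)) (T^[ArithmeticFunction.cardFactors (m ^ 2 + n ^ 2)] x)) /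
        (N : ℝ) ^ 2) atTop = 0 := by
  have hsmall : Small μ := by
    rcases hna with ⟨h1, h2⟩ | h
    · exact t_SMALL μ h2
    · exact h
  have hnt : S_NT := t_NT (t_VAR t_BOX t_RHO1 t_RHO2) (t_REM t_COP t_VSUM) t_DIV
  have hst := t_STG hT hsmall hnt
  obtain ⟨B, hB, hae⟩ := t_ASM hT.toMeasurePreserving box_nonempty hst
  refine ⟨B, hB, ?_⟩
  filter_upwards [hae] with x hx
  simp_rw [avg_eq] at hx
  exact hx

end Pool.Agent.Results.MP_696bea_an.DivergenceAlongOmega
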